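import Pool.Agent.Q127.SL.Central

/-!
# The `sl(2)` weight system at `c = -3/32` extends to a 4-invariant of graphs

The definitions (`IsFourInvariant`, `toggle`, `slide`, `ChordDiagram`, `ChordDiagram.graph`,
`casimir`, `ChordDiagram.stateSum`, `U2`, `elE`, `elF`, `elH`, `ChordDiagram.weight`) are in
`Pool/Agent/Q127/SL/Defs.lean`.
-/

set_option autoImplicit false

namespace Pool.Agent.Results.MP_4cfd5d_gt.OscillatorExtension

open Polynomial Pool.Agent.Q127.SL

/-- The number of colourings `m` is put equal to `-2`. -/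
noncomputable def xi (n : ℕ) (G : SimpleGraph (Fin n)) : ℂ :=
  (-1 / 64 : ℂ) ^ n * (((Classical.choose (exists_YG_poly G)).eval (-2) : ℤ) : ℂ)

theorem xi_eq {n : ℕ} (G : SimpleGraph (Fin n)) (P : ℤ[X])
    (hP : ∀ m : ℕ, P.eval (m : ℤ) = YG m G) :
    xi n G = (-1 / 64 : ℂ) ^ n * ((P.eval (-2) : ℤ) : ℂ) := by
  have h : Classical.choose (exists_YG_poly G) = P := by
    apply eq_of_infinite_eval_eq
    apply Set.Infinite.mono (s := Set.range fun m : ℕ => (m : ℤ))
    · rintro _ ⟨m, rfl⟩
      show (Classical.choose (exists_YG_poly G)).eval (m : ℤ) = P.eval (m : ℤ)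
      rw [Classical.choose_spec (exists_YG_poly G) m, hP m]
    · exact Set.infinite_range_of_injective Nat.cast_injective
  unfold xi
  rw [h]

theorem xi_four : IsFourInvariant xi := by
  refine ⟨?_, ?_⟩
  · rintro n G H ⟨e⟩
    obtain ⟨P, hP⟩ := exists_YG_poly H
    rw [xi_eq H P hP, xi_eq G P (fun m => by rw [hP m, YG_iso m G H e])]
  · intro n G a b hab
    obtain ⟨P1, h1⟩ := exists_YG_poly G
    obtain ⟨P2, h2⟩ := exists_YG_poly (toggle G a b)
    obtain ⟨P3, h3⟩ := exists_YG_poly (slide G a b)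
    obtain ⟨P4, h4⟩ := exists_YG_poly (toggle (slide G a b) a b)
    have h : P1 - P2 = P3 - P4 := by
      apply eq_of_infinite_eval_eq
      apply Set.Infinite.mono (s := Set.range fun m : ℕ => (m : ℤ))
      · rintro _ ⟨m, rfl⟩
        show (P1 - P2).eval (m : ℤ) = (P3 - P4).eval (m : ℤ)
        rw [eval_sub, eval_sub, h1, h2, h3, h4]
        exact YG_four_term m G a b hab
      · exact Set.infinite_range_of_injective Nat.cast_injective
    have h' := congrArg (fun P : ℤ[X] => ((P.eval (-2) : ℤ) : ℂ)) h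
    simp only [eval_sub, Int.cast_sub] at h'
    rw [xi_eq _ P1 h1, xi_eq _ P2 h2, xi_eq _ P3 h3, xi_eq _ P4 h4, ← mul_sub, ← mul_sub, h']

theorem xi_graph {n : ℕ} (D : ChordDiagram n) (p : ℂ[X])
    (hp : aeval (casimir elE elF elH) p = D.weight) : xi n D.graph = p.eval (-3 / 32) := by
  obtain ⟨P, hP⟩ := exists_YG_poly D.graph
  obtain ⟨φ, hE, hF, hH⟩ := exists_oscillator opA opB weyl_rel
  have h1 := congrArg φ hp
  rw [← aeval_algHom_apply, map_casimir, hE, hF, hH, casimir_oscillator opA opB weyl_rel,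
    aeval_scalar] at h1
  unfold ChordDiagram.weight at h1
  rw [map_stateSum, hE, hF, hH, stateSum_weyl opA opB weyl_rel D P hP] at h1
  have h2 := DFunLike.congr_fun h1 (1 : ℂ[X])
  rw [LinearMap.smul_apply, LinearMap.smul_apply, Module.End.one_apply] at h2
  have h3 := congrArg (fun q : ℂ[X] => q.coeff 0) h2
  simp only [coeff_smul, smul_eq_mul, coeff_one_zero, mul_one] at h3
  rw [xi_eq _ P hP, ← h3]

/-- There is a 4-invariant of graphs whose value at the intersection graph of every chord diagram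
is the value at `-3/32` of the polynomial in the Casimir element which is the `sl(2)` weight system
of the diagram. -/
theorem result : ∃ ξ : ∀ n : ℕ, SimpleGraph (Fin n) → ℂ, IsFourInvariant ξ ∧
    ∀ (n : ℕ) (D : ChordDiagram n), ∃ p : ℂ[X],
      (∀ q : ℂ[X], aeval (casimir elE elF elH) q = D.weight ↔ q = p) ∧
        ξ n D.graph = p.eval (-3 / 32) := by
  refine ⟨xi, xi_four, fun n D => ?_⟩
  obtain ⟨p, hp, hu⟩ := existsUnique_poly D
  exact ⟨p, fun q => ⟨fun hq => hu q hq, fun hq => by rw [hq]; exact hp⟩, xi_graph D p hp⟩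

end Pool.Agent.Results.MP_4cfd5d_gt.OscillatorExtension
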